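import Pool.Agent.H679R2.M1.Defs

/-!
# Reductions computed by circuits with free access to almost all of the graph: definitions
-/

set_option autoImplicit false

namespace Pool.Agent.Q202.FPP

open Pool.Agent.H520R2.NM Pool.Agent.H679R2.M1

/-- The inputs of the circuits: the bits of the pairs of vertices in `P`, and all Boolean functions
of the bits of the other pairs. -/
abbrev Input {n : ℕ} (P : Finset (Sym2 (Fin n))) : Type :=
  {e : Sym2 (Fin n) // e ∈ P} ⊕ (({e : Sym2 (Fin n) // e ∉ P} → Bool) → Bool)

/-- The values of the inputs for the graph `x`. -/
def value {n : ℕ} (P : Finset (Sym2 (Fin n))) (x : Sym2 (Fin n) → Bool) : Input P → Bool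
  | .inl e => x e.1
  | .inr h => h fun e => x e.1

/-- A truth-table reduction from a problem on graphs with vertex set `Fin n` to the satisfiability
problem for formulas in `Γ_{1,d}` over `v` variables. It is computed by a circuit `C` whose inputs
are the bits of the pairs in `P` and all Boolean functions of the bits of the other pairs. The
circuit produces, at the wires `out i c`, the bits of `q` formulas, and the answer is an arbitrary
function `ev` of the `q` answers to the questions whether these formulas are satisfiable. -/
structure FreeReduction {n : ℕ} (P : Finset (Sym2 (Fin n))) (v d q N : ℕ) where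
  /-- the circuit -/
  C : Circuit (Input P) N
  /-- the wire that carries the bit of the clause `c` in the `i`-th formula -/
  out : Fin q → Clause v d → Wire (Input P) N
  /-- the evaluation of the `q` answers -/
  ev : (Fin q → Bool) → Bool

open Classical in
/-- The answer of the reduction on the graph `x`. -/
noncomputable def FreeReduction.answer {n : ℕ} {P : Finset (Sym2 (Fin n))} {v d q N : ℕ}
    (R : FreeReduction P v d q N) (x : Sym2 (Fin n) → Bool) : Bool :=
  R.ev fun i => decide (Sat fun c => (R.out i c).eval (value P x) (R.C.vals (value P x)))

end Pool.Agent.Q202.FPP
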