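import Pool.Agent.Q202.FPP.Graph

/-! # Embedding the clique problem with edges in arbitrary position -/

set_option autoImplicit false

open Finset

namespace Pool.Agent.Q202.FPP

/-- a large set of pairs contains a large star or a large matching -/
lemma star_or_matching {n : ℕ} (P : Finset (Sym2 (Fin n))) (hP : ∀ e ∈ P, ¬ e.IsDiag) (t : ℕ)
    (ht0 : 1 ≤ t) (ht : 2 * t * t ≤ P.card) :
    (∃ c : Fin n, ∃ l : Fin t ↪ Fin n, ∀ i, l i ≠ c ∧ s(c, l i) ∈ P) ∨
      (∃ g : Fin t × Bool ↪ Fin n, ∀ i, s(g (i, false), g (i, true)) ∈ P) := by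
  classical
  obtain ⟨M, hM, hmax⟩ := Finset.exists_max_image
    (P.powerset.filter (fun M => ∀ e ∈ M, ∀ f ∈ M, e ≠ f → ∀ v, v ∈ e → v ∉ f)) Finset.card
    ⟨∅, by simp⟩
  rw [mem_filter, mem_powerset] at hM
  obtain ⟨hMP, hMd⟩ := hM
  by_cases hc : t ≤ M.card
  · right
    obtain ⟨M', hM', hM'c⟩ := Finset.exists_subset_card_eq hc
    let q : Fin t ≃ M' := (M'.equivFinOfCardEq hM'c).symm
    let a : Fin t → Fin n := fun i => (q i).1.out.1
    let b : Fin t → Fin n := fun i => (q i).1.out.2
    have hab : ∀ i, s(a i, b i) = (q i).1 := fun i => (q i).1.out_eq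
    have hmem : ∀ i, (q i).1 ∈ M := fun i => hM' (q i).2
    let g0 : Fin t × Bool → Fin n := fun p => if p.2 then b p.1 else a p.1
    have hg0 : ∀ p, g0 p ∈ (q p.1).1 := by
      rintro ⟨i, bb⟩
      rw [← hab]
      rcases bb with _ | _
      · exact Sym2.mem_mk_left _ _
      · exact Sym2.mem_mk_right _ _
    have hginj : Function.Injective g0 := by
      rintro ⟨i, bb⟩ ⟨j, bb'⟩ h
      by_cases hij : i = j
      · subst hij
        have hne : a i ≠ b i := by
          intro h'
          apply hP _ (hMP (hmem i))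
          rw [← hab, Sym2.mk_isDiag_iff]
          exact h'
        rcases bb with _ | _ <;> rcases bb' with _ | _
        · rfl
        · exact absurd h hne
        · exact absurd h.symm hne
        · rfl
      · exfalso
        have h1 := hg0 (i, bb)
        have h2 := hg0 (j, bb')
        rw [← h] at h2
        refine hMd _ (hmem i) _ (hmem j) (fun h' => hij ?_) _ h1 h2
        exact q.injective (Subtype.ext h')
    refine ⟨⟨g0, hginj⟩, fun i => ?_⟩
    show s(a i, b i) ∈ P
    rw [hab]
    exact hMP (hmem i)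
  · left
    push Not at hc
    let V : Finset (Fin n) := M.biUnion (fun e => univ.filter (fun v => v ∈ e))
    have hV : V.card ≤ 2 * (t - 1) := by
      calc V.card ≤ ∑ e ∈ M, (univ.filter (fun v => v ∈ e)).card := card_biUnion_le
        _ ≤ ∑ e ∈ M, 2 := by
            apply sum_le_sum
            intro e _
            induction e using Sym2.ind with
            | h x y =>
              calc (univ.filter (fun v => v ∈ s(x, y))).card ≤ ({x, y} : Finset (Fin n)).card := by
                    apply card_le_card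
                    intro v hv
                    simpa using hv
                _ ≤ 2 := card_le_two
        _ = M.card * 2 := by rw [sum_const, smul_eq_mul]
        _ ≤ 2 * (t - 1) := by omega
    have hcov : ∀ e ∈ P, ∃ v ∈ V, v ∈ e := by
      intro e he
      by_cases heM : e ∈ M
      · induction e using Sym2.ind with
        | h x y =>
          refine ⟨x, ?_, Sym2.mem_mk_left _ _⟩
          rw [mem_biUnion]
          exact ⟨_, heM, by simp⟩
      · by_contra hcon
        push Not at hcon
        have hV' : ∀ f ∈ M, ∀ v, v ∈ e → v ∉ f := by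
          intro f hf v hv hvf
          refine hcon v ?_ hv
          rw [mem_biUnion]
          exact ⟨f, hf, by simpa using hvf⟩
        have := hmax (insert e M) (by
          rw [mem_filter, mem_powerset]
          refine ⟨insert_subset he hMP, ?_⟩
          intro f hf f' hf' hff v hv hv'
          rcases mem_insert.1 hf with hfe | hf1
          · rcases mem_insert.1 hf' with hfe' | hf1'
            · exact hff (hfe.trans hfe'.symm)
            · exact hV' f' hf1' v (hfe ▸ hv) hv'
          · rcases mem_insert.1 hf' with hfe' | hf1'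
            · exact hV' f hf1 v (hfe' ▸ hv') hv
            · exact hMd f hf1 f' hf1' hff v hv hv')
        rw [card_insert_of_notMem heM] at this
        omega
    have hex : ∃ v ∈ V, t ≤ (P.filter (fun e => v ∈ e)).card := by
      by_contra hcon
      push Not at hcon
      have h1 : P ⊆ V.biUnion (fun v => P.filter (fun e => v ∈ e)) := by
        intro e he
        obtain ⟨v, hv, hve⟩ := hcov e he
        rw [mem_biUnion]
        exact ⟨v, hv, by rw [mem_filter]; exact ⟨he, hve⟩⟩
      have h2 : P.card ≤ V.card * (t - 1) := by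
        calc P.card ≤ (V.biUnion (fun v => P.filter (fun e => v ∈ e))).card := card_le_card h1
          _ ≤ ∑ v ∈ V, (P.filter (fun e => v ∈ e)).card := card_biUnion_le
          _ ≤ ∑ v ∈ V, (t - 1) := by
              apply sum_le_sum
              intro v hv
              have := hcon v hv
              omega
          _ = V.card * (t - 1) := by rw [sum_const, smul_eq_mul]
      have h3 : V.card * (t - 1) ≤ 2 * (t - 1) * (t - 1) := Nat.mul_le_mul_right _ hV
      have h4 : 2 * (t - 1) * (t - 1) < 2 * t * t := by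
        have h5 : 2 * (t - 1) < 2 * t := by omega
        calc 2 * (t - 1) * (t - 1) ≤ 2 * (t - 1) * t := Nat.mul_le_mul_left _ (by omega)
          _ < 2 * t * t := Nat.mul_lt_mul_of_pos_right h5 (by omega)
      omega
    obtain ⟨c, _, hc'⟩ := hex
    obtain ⟨F, hF, hFc⟩ := Finset.exists_subset_card_eq hc'
    let q : Fin t ≃ F := (F.equivFinOfCardEq hFc).symm
    have hq : ∀ i, (q i).1 ∈ P ∧ c ∈ (q i).1 := fun i => mem_filter.1 (hF (q i).2)
    have hother : ∀ i, ∃ w, (q i).1 = s(c, w) := fun i => by
      obtain ⟨w, hw⟩ := (hq i).2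
      exact ⟨w, hw⟩
    choose l hl using hother
    refine ⟨c, ⟨l, ?_⟩, ?_⟩
    · intro i j hij
      apply q.injective
      apply Subtype.ext
      rw [hl i, hl j, hij]
    · intro i
      show l i ≠ c ∧ s(c, l i) ∈ P
      refine ⟨?_, ?_⟩
      · intro h
        apply hP _ (hq i).1
        rw [hl i, h]
        exact Sym2.mk_isDiag_iff.2 rfl
      · rw [← hl i]
        exact (hq i).1

/-- the value of the substituted variables -/
abbrev sv {A B : Type} (τ : A → B ⊕ Bool) (x : B → Bool) : A → Bool := fun i => Sum.elim x id (τ i)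

section general

variable {n m : ℕ} {T W' : Type}

open Classical in
/-- the substitution -/
noncomputable def tau (ι : T ↪ Fin n) (U : Finset (Fin n)) (φ : W' → Sym2 T) (Fix : Sym2 T → Prop)
    (bit : W' → Sym2 (Fin m) ⊕ Bool) (e : Sym2 (Fin n)) : Sym2 (Fin m) ⊕ Bool :=
  if ∃ u ∈ U, u ∈ e then Sum.inr true
  else if h : ∃ v, e = (φ v).map ι then bit h.choose
  else Sum.inr (decide (∃ e', e = e'.map ι ∧ Fix e'))

variable (ι : T ↪ Fin n) (U : Finset (Fin n)) (φ : W' → Sym2 T) (Fix : Sym2 T → Prop)
    (bit : W' → Sym2 (Fin m) ⊕ Bool)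

lemma not_touch (hU : ∀ t, ι t ∉ U) (e : Sym2 T) : ¬ ∃ u ∈ U, u ∈ e.map ι := by
  rintro ⟨u, hu, hue⟩
  rw [Sym2.mem_map] at hue
  obtain ⟨t, _, rfl⟩ := hue
  exact hU t hu

lemma tau_phi (hU : ∀ t, ι t ∉ U) (hφ : Function.Injective φ) (v : W') :
    tau ι U φ Fix bit ((φ v).map ι) = bit v := by
  unfold tau
  have h : ∃ v', (φ v).map ι = (φ v').map ι := ⟨v, rfl⟩
  rw [if_neg (not_touch ι U hU _), dif_pos h]
  congr 1
  exact (hφ (Sym2.map.injective ι.injective h.choose_spec)).symm

lemma tau_fix (hU : ∀ t, ι t ∉ U) (e : Sym2 T) (he : ∀ v, e ≠ φ v) (x : Sym2 (Fin m) → Bool) :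
    (sv (tau ι U φ Fix bit) x (e.map ι) = true ↔ Fix e) := by
  classical
  unfold sv tau
  have h : ¬ ∃ v', e.map ι = (φ v').map ι := by
    rintro ⟨v', h⟩
    exact he v' (Sym2.map.injective ι.injective h)
  rw [if_neg (not_touch ι U hU _), dif_neg h]
  simp only [Sum.elim_inr, id_eq, decide_eq_true_eq]
  constructor
  · rintro ⟨e', h1, h2⟩
    rw [Sym2.map.injective ι.injective h1]
    exact h2
  · intro h2
    exact ⟨e, rfl, h2⟩

lemma tau_univ (u w : Fin n) (hu : u ∈ U) (x : Sym2 (Fin m) → Bool) :
    sv (tau ι U φ Fix bit) x s(u, w) = true := by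
  unfold sv tau
  rw [if_pos ⟨u, hu, Sym2.mem_mk_left _ _⟩]
  rfl

lemma tau_range (u w : Fin n) (hu : u ∉ U) (hw : w ∉ U) (x : Sym2 (Fin m) → Bool)
    (h : sv (tau ι U φ Fix bit) x s(u, w) = true) : ∃ t, u = ι t := by
  classical
  unfold sv tau at h
  have h1 : ¬ ∃ u' ∈ U, u' ∈ s(u, w) := by
    rintro ⟨u', hu', h'⟩
    rcases Sym2.mem_iff.1 h' with rfl | rfl
    · exact hu hu'
    · exact hw hu'
  rw [if_neg h1] at h
  have h2 : ∃ e' : Sym2 T, s(u, w) = e'.map ι := by
    by_cases h3 : ∃ v, s(u, w) = (φ v).map ι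
    · obtain ⟨v, hv⟩ := h3
      exact ⟨_, hv⟩
    · rw [dif_neg h3] at h
      simp only [Sum.elim_inr, id_eq, decide_eq_true_eq] at h
      obtain ⟨e', h4, _⟩ := h
      exact ⟨e', h4⟩
  obtain ⟨e', he'⟩ := h2
  have h5 : u ∈ e'.map ι := by rw [← he']; exact Sym2.mem_mk_left _ _
  rw [Sym2.mem_map] at h5
  obtain ⟨t, _, ht⟩ := h5
  exact ⟨t, ht.symm⟩

lemma tau_const (P : Finset (Sym2 (Fin n))) (hPφ : ∀ v, (φ v).map ι ∈ P) (e : Sym2 (Fin n))
    (he : e ∉ P) : ∃ b, tau ι U φ Fix bit e = Sum.inr b := by
  unfold tau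
  split_ifs with h1 h2
  · exact ⟨_, rfl⟩
  · exfalso
    obtain ⟨v, hv⟩ := h2
    exact he (by rw [hv]; exact hPφ v)
  · exact ⟨_, rfl⟩

lemma tau_clique [DecidableEq T] (hU : ∀ t, ι t ∉ U) (k : ℕ) (hk : 2 ≤ k)
    (x : Sym2 (Fin m) → Bool) :
    ¬ (gr (sv (tau ι U φ Fix bit) x)).CliqueFree (U.card + k) ↔
      ¬ (gr (fun e : Sym2 T => sv (tau ι U φ Fix bit) x (e.map ι))).CliqueFree k :=
  clique_univ ι U hU _ _ (fun u hu w => tau_univ ι U φ Fix bit u w hu x)
    (fun _ _ => rfl) (fun u w hu hw h => tau_range ι U φ Fix bit u w hu hw x h) k hk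

end general

lemma comp_symm {k m : ℕ} (v w : W k m) (h : Comp v w) : Comp w v := by
  obtain ⟨h0, h1, h2, h3, h4⟩ := h
  exact ⟨h0.symm, fun h => (h1 h.symm).symm, fun h => (h3 h.symm).symm,
    fun h => (h2 h.symm).symm, fun h => (h4 h.symm).symm⟩

/-- the label of the edges that carry the bits -/
def lab {k m : ℕ} (v : W k m) : Sym2 (Fin m) ⊕ Bool :=
  if v.2.1 = v.2.2 then Sum.inr false else Sum.inl s(v.2.1, v.2.2)

lemma lab_val {k m : ℕ} (x : Sym2 (Fin m) → Bool) (v : W k m) :
    Sum.elim x id (lab v) = bitW x v := by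
  unfold lab bitW
  split_ifs <;> rfl

/-- the clique problem can be embedded, with all variable pairs in `P` -/
theorem core {n m k K : ℕ} (hk : 2 ≤ k) (hm : 1 ≤ m) (P : Finset (Sym2 (Fin n)))
    (hP : ∀ e ∈ P, ¬ e.IsDiag) (hK : 2 * (k * (k - 1)) + 1 ≤ K)
    (ht : 2 * (k * (k - 1) * (m * m)) * (k * (k - 1) * (m * m)) ≤ P.card)
    (hn : 2 * (k * (k - 1) * (m * m)) + K ≤ n) :
    ∃ τ : Sym2 (Fin n) → Sym2 (Fin m) ⊕ Bool, (∀ e, e ∉ P → ∃ b, τ e = Sum.inr b) ∧
      ∀ x, (¬ (gr (sv τ x)).CliqueFree K ↔ ¬ (gr x).CliqueFree k) := by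
  classical
  have hkk : 1 ≤ k * (k - 1) := Nat.mul_pos (by omega) (by omega)
  obtain ⟨t, htd⟩ : ∃ t, t = k * (k - 1) * (m * m) := ⟨_, rfl⟩
  rw [← htd] at ht hn
  have ht1 : k * (k - 1) ≤ t := by
    rw [htd]
    exact Nat.le_mul_of_pos_right _ (Nat.mul_pos hm hm)
  let q : W k m ≃ Fin t := Fintype.equivFinOfCardEq (by rw [card_W, htd])
  rcases star_or_matching P hP t (by omega) ht with ⟨c, l, hl⟩ | ⟨g, hg⟩
  · let ι0 : Option (W k m) → Fin n := fun o => o.elim c (fun v => l (q v))
    have hι : Function.Injective ι0 := by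
      intro a b hab
      cases a with
      | none =>
        cases b with
        | none => rfl
        | some b => exact absurd hab.symm (hl (q b)).1
      | some a =>
        cases b with
        | none => exact absurd hab (hl (q a)).1
        | some b => rw [q.injective (l.injective hab)]
    let ι : Option (W k m) ↪ Fin n := ⟨ι0, hι⟩
    have hcardT : Fintype.card (Option (W k m)) = t + 1 := by
      rw [Fintype.card_option, card_W, htd]
    obtain ⟨U, hU1, hU2⟩ := Finset.exists_subset_card_eq
      (s := univ \ (univ.map ι)) (n := K - (k * (k - 1) + 1)) (by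
        rw [card_sdiff_of_subset (subset_univ _), card_map, card_univ, card_univ, hcardT,
          Fintype.card_fin]
        omega)
    have hU : ∀ o, ι o ∉ U := by
      intro o ho
      have := hU1 ho
      rw [mem_sdiff] at this
      exact this.2 (mem_map_of_mem ι (mem_univ _))
    let φ : W k m → Sym2 (Option (W k m)) := fun v => s(none, some v)
    have hφ : Function.Injective φ := by
      intro v w h
      have h' : s((none : Option (W k m)), some v) = s(none, some w) := h
      rw [Sym2.eq_iff] at h'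
      rcases h' with ⟨_, h'⟩ | ⟨h', _⟩
      · exact Option.some.inj h'
      · exact absurd h' (by simp)
    let Fix : Sym2 (Option (W k m)) → Prop := fun e => ∃ v w, e = s(some v, some w) ∧ Comp v w
    refine ⟨tau ι U φ Fix lab, fun e he => tau_const ι U φ Fix lab P ?_ e he, fun x => ?_⟩
    · intro v
      exact (hl (q v)).2
    · have hKK : K = U.card + (k * (k - 1) + 1) := by omega
      rw [hKK, tau_clique ι U φ Fix lab hU _ (by omega) x, ← has_iff hk x]
      apply star_iff (Comp (k := k) (m := m)) (bitW x) _ comp_max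
      · intro v
        show Sum.elim x id (tau ι U φ Fix lab ((φ v).map ι)) = bitW x v
        rw [tau_phi ι U φ Fix lab hU hφ v, lab_val]
      · intro v w hvw
        have h1 : ∀ u, s(some v, some w) ≠ φ u := by
          intro u hu
          have h' : s(some v, some w) = s((none : Option (W k m)), some u) := hu
          rw [Sym2.eq_iff] at h'
          rcases h' with ⟨h', _⟩ | ⟨_, h'⟩
          · exact absurd h' (by simp)
          · exact absurd h' (by simp)
        rw [tau_fix ι U φ Fix lab hU _ h1 x]
        constructor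
        · rintro ⟨v', w', h', hc⟩
          rw [Sym2.eq_iff] at h'
          rcases h' with ⟨h2, h3⟩ | ⟨h2, h3⟩
          · rw [Option.some.inj h2, Option.some.inj h3]
            exact hc
          · rw [Option.some.inj h2, Option.some.inj h3]
            exact comp_symm _ _ hc
        · intro hc
          exact ⟨v, w, rfl, hc⟩
  · let ι0 : W k m × Bool → Fin n := fun p => g (q p.1, p.2)
    have hι : Function.Injective ι0 := by
      rintro ⟨a, a'⟩ ⟨b, b'⟩ hab
      have h := g.injective hab
      rw [Prod.mk.injEq] at h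
      exact Prod.ext (q.injective h.1) h.2
    let ι : W k m × Bool ↪ Fin n := ⟨ι0, hι⟩
    have hcardT : Fintype.card (W k m × Bool) = t * 2 := by
      rw [Fintype.card_prod, card_W, htd]; rfl
    obtain ⟨U, hU1, hU2⟩ := Finset.exists_subset_card_eq
      (s := univ \ (univ.map ι)) (n := K - 2 * (k * (k - 1))) (by
        rw [card_sdiff_of_subset (subset_univ _), card_map, card_univ, card_univ, hcardT,
          Fintype.card_fin]
        omega)
    have hU : ∀ o, ι o ∉ U := by
      intro o ho
      have := hU1 ho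
      rw [mem_sdiff] at this
      exact this.2 (mem_map_of_mem ι (mem_univ _))
    let φ : W k m → Sym2 (W k m × Bool) := fun v => s((v, false), (v, true))
    have hφ : Function.Injective φ := by
      intro v w h
      have h' : s(((v, false) : W k m × Bool), (v, true)) = s((w, false), (w, true)) := h
      rw [Sym2.eq_iff] at h'
      rcases h' with ⟨h', _⟩ | ⟨h', _⟩
      · exact congrArg Prod.fst h'
      · exact congrArg Prod.fst h'
    let Fix : Sym2 (W k m × Bool) → Prop := fun e =>
      ∃ v b w b', e = s((v, b), (w, b')) ∧ Comp v w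
    refine ⟨tau ι U φ Fix lab, fun e he => tau_const ι U φ Fix lab P ?_ e he, fun x => ?_⟩
    · intro v
      exact hg (q v)
    · have hKK : K = U.card + 2 * (k * (k - 1)) := by omega
      rw [hKK, tau_clique ι U φ Fix lab hU _ (by omega) x, ← has_iff hk x]
      apply matching_iff (Comp (k := k) (m := m)) (bitW x) _ comp_max
      · intro v
        show Sum.elim x id (tau ι U φ Fix lab ((φ v).map ι)) = bitW x v
        rw [tau_phi ι U φ Fix lab hU hφ v, lab_val]
      · intro v w b b' hvw
        have h1 : ∀ u, s((v, b), (w, b')) ≠ φ u := by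
          intro u hu
          have h' : s((v, b), (w, b')) = s(((u, false) : W k m × Bool), (u, true)) := hu
          rw [Sym2.eq_iff] at h'
          rcases h' with ⟨h2, h3⟩ | ⟨h2, h3⟩
          · exact hvw ((congrArg Prod.fst h2).trans (congrArg Prod.fst h3).symm)
          · exact hvw ((congrArg Prod.fst h2).trans (congrArg Prod.fst h3).symm)
        rw [tau_fix ι U φ Fix lab hU _ h1 x]
        constructor
        · rintro ⟨v', c, w', c', h', hc⟩
          rw [Sym2.eq_iff] at h'
          rcases h' with ⟨h2, h3⟩ | ⟨h2, h3⟩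
          · rw [show v = v' from congrArg Prod.fst h2, show w = w' from congrArg Prod.fst h3]
            exact hc
          · rw [show v = w' from congrArg Prod.fst h2, show w = v' from congrArg Prod.fst h3]
            exact comp_symm _ _ hc
        · intro hc
          exact ⟨v, b, w, b', rfl, hc⟩

end Pool.Agent.Q202.FPP
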