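import Mathlib

/-! # Cliques in a graph whose edges are in arbitrary position -/

set_option autoImplicit false

open Finset

namespace Pool.Agent.Q202.FPP

/-- the graph given by its edge indicators -/
abbrev gr {V : Type} (x : Sym2 V → Bool) : SimpleGraph V :=
  SimpleGraph.fromEdgeSet {e | x e = true}

lemma gr_adj {V : Type} (x : Sym2 V → Bool) (u w : V) :
    (gr x).Adj u w ↔ x s(u, w) = true ∧ u ≠ w := by
  simp [gr]

lemma not_free {V : Type} {G : SimpleGraph V} {k : ℕ} :
    ¬ G.CliqueFree k ↔ ∃ s : Finset V, s.card = k ∧ ∀ u ∈ s, ∀ w ∈ s, u ≠ w → G.Adj u w := by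
  unfold SimpleGraph.CliqueFree
  push Not
  constructor
  · rintro ⟨s, hs⟩
    rw [SimpleGraph.isNClique_iff] at hs
    exact ⟨s, hs.2, fun u hu w hw h => hs.1 hu hw h⟩
  · rintro ⟨s, h1, h2⟩
    refine ⟨s, ?_⟩
    rw [SimpleGraph.isNClique_iff]
    exact ⟨fun u hu w hw h => h2 u hu w hw h, h1⟩

/-- universal vertices -/
lemma clique_univ {V T : Type} [DecidableEq V] [DecidableEq T] (ι : T ↪ V) (U : Finset V)
    (hU : ∀ t, ι t ∉ U) (Z : Sym2 V → Bool) (z : Sym2 T → Bool)
    (hZU : ∀ u ∈ U, ∀ w, Z s(u, w) = true)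
    (hZT : ∀ t t', Z s(ι t, ι t') = z s(t, t'))
    (hZ0 : ∀ u w, u ∉ U → w ∉ U → Z s(u, w) = true → ∃ t, u = ι t)
    (k : ℕ) (hk : 2 ≤ k) :
    ¬ (gr Z).CliqueFree (U.card + k) ↔ ¬ (gr z).CliqueFree k := by
  rw [not_free, not_free]
  constructor
  · rintro ⟨s, hs, hc⟩
    have h1 : k ≤ (s \ U).card := by
      have := Finset.le_card_sdiff U s
      omega
    have h2 : ∀ v ∈ s \ U, ∃ t, v = ι t := by
      intro v hv
      have h3 : 1 < (s \ U).card := by omega
      obtain ⟨w, hw, hwv⟩ := Finset.exists_mem_ne h3 v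
      rw [mem_sdiff] at hv hw
      have h4 := (gr_adj Z v w).1 (hc v hv.1 w hw.1 (Ne.symm hwv))
      exact hZ0 v w hv.2 hw.2 h4.1
    have h5 : ∃ S : Finset T, S.map ι = s \ U := by
      refine ⟨(s \ U).preimage ι (ι.injective.injOn), ?_⟩
      ext v
      simp only [mem_map, mem_preimage]
      constructor
      · rintro ⟨t, ht, rfl⟩
        exact ht
      · intro hv
        obtain ⟨t, rfl⟩ := h2 v hv
        exact ⟨t, hv, rfl⟩
    obtain ⟨S, hS⟩ := h5
    have h6 : k ≤ S.card := by
      rw [← Finset.card_map ι, hS]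
      exact h1
    obtain ⟨S', hS', hS'c⟩ := Finset.exists_subset_card_eq h6
    refine ⟨S', hS'c, fun t ht t' ht' htt' => ?_⟩
    have h7 : ι t ∈ s \ U := by rw [← hS]; exact mem_map_of_mem ι (hS' ht)
    have h8 : ι t' ∈ s \ U := by rw [← hS]; exact mem_map_of_mem ι (hS' ht')
    rw [mem_sdiff] at h7 h8
    have h9 := (gr_adj Z _ _).1 (hc _ h7.1 _ h8.1 (fun h => htt' (ι.injective h)))
    rw [gr_adj, ← hZT]
    exact ⟨h9.1, htt'⟩
  · rintro ⟨S, hS, hc⟩
    refine ⟨U ∪ S.map ι, ?_, ?_⟩
    · rw [card_union_of_disjoint, card_map, hS]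
      rw [Finset.disjoint_left]
      intro v hv hv'
      obtain ⟨t, _, rfl⟩ := mem_map.1 hv'
      exact hU t hv
    · intro u hu w hw huw
      rw [gr_adj]
      refine ⟨?_, huw⟩
      rcases mem_union.1 hu with hu | hu
      · exact hZU u hu w
      · rcases mem_union.1 hw with hw | hw
        · rw [Sym2.eq_swap]
          exact hZU w hw u
        · obtain ⟨t, ht, rfl⟩ := mem_map.1 hu
          obtain ⟨t', ht', rfl⟩ := mem_map.1 hw
          rw [hZT]
          exact ((gr_adj z t t').1 (hc t ht t' ht' (fun h => huw (by rw [h])))).1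

/-- there are `k` pairwise compatible elements that are present -/
def Has {W : Type} (c : W → W → Prop) (y : W → Bool) (k : ℕ) : Prop :=
  ∃ S : Finset W, S.card = k ∧ (∀ v ∈ S, y v = true) ∧ ∀ v ∈ S, ∀ w ∈ S, v ≠ w → c v w

lemma star_iff {W : Type} [DecidableEq W] (c : W → W → Prop) (y : W → Bool) (k : ℕ)
    (hmax : ∀ S : Finset W, (∀ v ∈ S, ∀ w ∈ S, v ≠ w → c v w) → S.card ≤ k)
    (z : Sym2 (Option W) → Bool) (h0 : ∀ v, z s(none, some v) = y v)
    (h1 : ∀ v w, v ≠ w → (z s(some v, some w) = true ↔ c v w)) :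
    ¬ (gr z).CliqueFree (k + 1) ↔ Has c y k := by
  rw [not_free]
  constructor
  · rintro ⟨S, hS, hc⟩
    have hA : ∀ v ∈ S.eraseNone, ∀ w ∈ S.eraseNone, v ≠ w → c v w := by
      intro v hv w hw hvw
      rw [mem_eraseNone] at hv hw
      have h := (gr_adj z _ _).1 (hc _ hv _ hw (fun h => hvw (Option.some.inj h)))
      exact (h1 v w hvw).1 h.1
    have hB := hmax _ hA
    have hN : none ∈ S := by
      by_contra hN
      have : S.eraseNone.card = S.card := by
        have h2 : S.eraseNone.map Function.Embedding.some = S.erase none :=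
          Finset.map_some_eraseNone S
        have h3 := congrArg Finset.card h2
        rw [card_map, Finset.erase_eq_of_notMem hN] at h3
        exact h3
      omega
    have hC : S.eraseNone.card = k := by
      have h2 : S.eraseNone.map Function.Embedding.some = S.erase none :=
        Finset.map_some_eraseNone S
      have h3 := congrArg Finset.card h2
      rw [card_map, Finset.card_erase_of_mem hN, hS] at h3
      omega
    refine ⟨S.eraseNone, hC, fun v hv => ?_, hA⟩
    rw [mem_eraseNone] at hv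
    have h := (gr_adj z _ _).1 (hc _ hN _ hv (by simp))
    rw [← h0]
    exact h.1
  · rintro ⟨S, hS, hy, hc⟩
    refine ⟨insertNone S, by rw [card_insertNone, hS], ?_⟩
    intro u hu w hw huw
    rw [gr_adj]
    refine ⟨?_, huw⟩
    cases u with
    | none =>
      cases w with
      | none => exact absurd rfl huw
      | some w =>
        rw [h0]
        exact hy w (by simpa using hw)
    | some u =>
      cases w with
      | none =>
        rw [Sym2.eq_swap, h0]
        exact hy u (by simpa using hu)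
      | some w =>
        have huw' : u ≠ w := fun h => huw (by rw [h])
        exact (h1 u w huw').2 (hc u (by simpa using hu) w (by simpa using hw) huw')

lemma matching_iff {W : Type} [DecidableEq W] (c : W → W → Prop) (y : W → Bool) (k : ℕ)
    (hmax : ∀ S : Finset W, (∀ v ∈ S, ∀ w ∈ S, v ≠ w → c v w) → S.card ≤ k)
    (z : Sym2 (W × Bool) → Bool) (h0 : ∀ v, z s((v, false), (v, true)) = y v)
    (h1 : ∀ v w b b', v ≠ w → (z s((v, b), (w, b')) = true ↔ c v w)) :
    ¬ (gr z).CliqueFree (2 * k) ↔ Has c y k := by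
  rw [not_free]
  constructor
  · rintro ⟨S, hS, hc⟩
    have hA : ∀ v ∈ S.image Prod.fst, ∀ w ∈ S.image Prod.fst, v ≠ w → c v w := by
      intro v hv w hw hvw
      obtain ⟨⟨v', b⟩, hv1, rfl⟩ := mem_image.1 hv
      obtain ⟨⟨w', b'⟩, hw1, rfl⟩ := mem_image.1 hw
      have h := (gr_adj z _ _).1 (hc _ hv1 _ hw1 (fun h => hvw (congrArg Prod.fst h)))
      exact (h1 v' w' b b' hvw).1 h.1
    have hB := hmax _ hA
    have hsub : S ⊆ (S.image Prod.fst) ×ˢ (univ : Finset Bool) := by
      intro p hp
      rw [mem_product]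
      exact ⟨mem_image_of_mem _ hp, mem_univ _⟩
    have hcard : ((S.image Prod.fst) ×ˢ (univ : Finset Bool)).card =
        (S.image Prod.fst).card * 2 := by
      rw [card_product]; rfl
    have heq : S = (S.image Prod.fst) ×ˢ (univ : Finset Bool) := by
      apply Finset.eq_of_subset_of_card_le hsub
      rw [hcard, hS]
      omega
    have hC : (S.image Prod.fst).card = k := by
      have := congrArg Finset.card heq
      rw [hcard, hS] at this
      omega
    refine ⟨S.image Prod.fst, hC, fun v hv => ?_, hA⟩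
    have hf : (v, false) ∈ S := by
      rw [heq, mem_product]; exact ⟨hv, mem_univ _⟩
    have ht : (v, true) ∈ S := by
      rw [heq, mem_product]; exact ⟨hv, mem_univ _⟩
    have h := (gr_adj z _ _).1 (hc _ hf _ ht (by simp))
    rw [← h0]
    exact h.1
  · rintro ⟨S, hS, hy, hc⟩
    refine ⟨S ×ˢ (univ : Finset Bool), ?_, ?_⟩
    · rw [card_product, hS]
      show k * 2 = 2 * k
      ring
    · rintro ⟨u, b⟩ hu ⟨w, b'⟩ hw huw
      rw [mem_product] at hu hw
      rw [gr_adj]
      refine ⟨?_, huw⟩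
      by_cases h : u = w
      · subst h
        have hy' := hy u hu.1
        rcases b with _ | _ <;> rcases b' with _ | _
        · exact absurd rfl huw
        · rw [h0]; exact hy'
        · rw [Sym2.eq_swap, h0]; exact hy'
        · exact absurd rfl huw
      · exact (h1 u w b b' h).2 (hc u hu.1 w hw.1 h)

/-- ordered pairs of different colours with values for both -/
abbrev W (k m : ℕ) : Type := {p : Fin k × Fin k // p.1 ≠ p.2} × (Fin m × Fin m)

/-- compatible partial assignments with different domains -/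
def Comp {k m : ℕ} (v w : W k m) : Prop :=
  v.1 ≠ w.1 ∧ (v.1.1.1 = w.1.1.1 → v.2.1 = w.2.1) ∧ (v.1.1.1 = w.1.1.2 → v.2.1 = w.2.2) ∧
    (v.1.1.2 = w.1.1.1 → v.2.2 = w.2.1) ∧ (v.1.1.2 = w.1.1.2 → v.2.2 = w.2.2)

/-- the edge is present -/
def bitW {k m : ℕ} (x : Sym2 (Fin m) → Bool) (v : W k m) : Bool :=
  if v.2.1 = v.2.2 then false else x s(v.2.1, v.2.2)

lemma card_colours (k : ℕ) : Fintype.card {p : Fin k × Fin k // p.1 ≠ p.2} = k * (k - 1) := by
  rw [Fintype.card_subtype]
  have : (univ.filter fun p : Fin k × Fin k => p.1 ≠ p.2) = (univ : Finset (Fin k)).offDiag := by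
    ext p; simp [mem_offDiag]
  rw [this, offDiag_card, card_univ, Fintype.card_fin, Nat.mul_sub_one]

lemma card_W (k m : ℕ) : Fintype.card (W k m) = k * (k - 1) * (m * m) := by
  rw [Fintype.card_prod, card_colours, Fintype.card_prod, Fintype.card_fin]

lemma comp_max {k m : ℕ} (S : Finset (W k m)) (h : ∀ v ∈ S, ∀ w ∈ S, v ≠ w → Comp v w) :
    S.card ≤ k * (k - 1) := by
  rw [← card_colours, ← Finset.card_univ]
  apply Finset.card_le_card_of_injOn (fun v => v.1) (fun _ _ => mem_coe.2 (mem_univ _))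
  intro v hv w hw hvw
  by_contra hne
  exact (h v hv w hw hne).1 hvw

lemma has_iff {k m : ℕ} (hk : 2 ≤ k) (x : Sym2 (Fin m) → Bool) :
    Has (Comp (k := k) (m := m)) (bitW x) (k * (k - 1)) ↔ ¬ (gr x).CliqueFree k := by
  constructor
  · rintro ⟨S, hS, hy, hc⟩
    have hinj : Set.InjOn (fun v : W k m => v.1) S := by
      intro v hv w hw hvw
      by_contra hne
      exact (hc v hv w hw hne).1 hvw
    have himg : S.image (fun v => v.1) = univ := by
      apply Finset.eq_univ_of_card
      rw [card_image_of_injOn hinj, hS, card_colours]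
    have hex : ∀ p : {p : Fin k × Fin k // p.1 ≠ p.2}, ∃ v ∈ S, v.1 = p := by
      intro p
      have := mem_univ p
      rw [← himg, mem_image] at this
      exact this
    choose F hF hFp using hex
    have hnx : ∀ i : Fin k, ∃ j : Fin k, i ≠ j := by
      intro i
      have : 1 < Fintype.card (Fin k) := by rw [Fintype.card_fin]; omega
      obtain ⟨j, hj⟩ := Fintype.exists_ne_of_one_lt_card this i
      exact ⟨j, hj.symm⟩
    choose nx hnx' using hnx
    let f : Fin k → Fin m := fun i => (F ⟨(i, nx i), hnx' i⟩).2.1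
    have hf1 : ∀ p : {p : Fin k × Fin k // p.1 ≠ p.2}, (F p).2.1 = f p.1.1 := by
      intro p
      by_cases h : F p = F ⟨(p.1.1, nx p.1.1), hnx' p.1.1⟩
      · show (F p).2.1 = (F ⟨(p.1.1, nx p.1.1), hnx' p.1.1⟩).2.1
        rw [← h]
      · have hh := (hc _ (hF p) _ (hF ⟨(p.1.1, nx p.1.1), hnx' p.1.1⟩) h).2.1
        apply hh
        rw [hFp, hFp]
    have hf2 : ∀ p : {p : Fin k × Fin k // p.1 ≠ p.2}, (F p).2.2 = f p.1.2 := by
      intro p
      have h : F p ≠ F ⟨(p.1.2, nx p.1.2), hnx' p.1.2⟩ := by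
        intro h
        have h2 := congrArg (fun v : W k m => v.1) h
        simp only [hFp] at h2
        have h3 := congrArg (fun q : {p : Fin k × Fin k // p.1 ≠ p.2} => q.1.1) h2
        exact p.2 h3
      have hh := (hc _ (hF p) _ (hF ⟨(p.1.2, nx p.1.2), hnx' p.1.2⟩) h).2.2.2.1
      apply hh
      rw [hFp, hFp]
    have hadj : ∀ i j : Fin k, i ≠ j → (gr x).Adj (f i) (f j) := by
      intro i j hij
      have h := hy _ (hF ⟨(i, j), hij⟩)
      unfold bitW at h
      rw [hf1, hf2] at h
      rw [gr_adj]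
      split_ifs at h with h2
      exact ⟨h, h2⟩
    rw [not_free]
    have hfi : Function.Injective f := by
      intro i j hij
      by_contra hne
      exact (hadj i j hne).ne hij
    refine ⟨univ.image f, by rw [card_image_of_injective _ hfi, card_univ, Fintype.card_fin], ?_⟩
    intro u hu w hw huw
    obtain ⟨i, _, rfl⟩ := mem_image.1 hu
    obtain ⟨j, _, rfl⟩ := mem_image.1 hw
    exact hadj i j (fun h => huw (by rw [h]))
  · intro h
    have h' : ∃ e : Fin k → Fin m, ∀ i j : Fin k, i ≠ j → (gr x).Adj (e i) (e j) := by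
      rw [not_free] at h
      obtain ⟨s, hs, hc⟩ := h
      refine ⟨fun i => (s.equivFinOfCardEq hs).symm i, fun i j hij => ?_⟩
      apply hc
      · exact ((s.equivFinOfCardEq hs).symm i).2
      · exact ((s.equivFinOfCardEq hs).symm j).2
      · intro h
        exact hij ((s.equivFinOfCardEq hs).symm.injective (Subtype.ext h))
    obtain ⟨e, he⟩ := h'
    have hadj : ∀ i j : Fin k, i ≠ j → x s(e i, e j) = true ∧ e i ≠ e j := by
      intro i j hij
      rw [← gr_adj]
      exact he i j hij
    let g : {p : Fin k × Fin k // p.1 ≠ p.2} → W k m := fun p => (p, (e p.1.1, e p.1.2))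
    have hg : Function.Injective g := fun p q h => congrArg Prod.fst h
    refine ⟨univ.image g, by rw [card_image_of_injective _ hg, card_univ, card_colours], ?_, ?_⟩
    · intro v hv
      obtain ⟨p, _, rfl⟩ := mem_image.1 hv
      have := hadj _ _ p.2
      unfold bitW
      rw [if_neg this.2]
      exact this.1
    · intro v hv w hw hvw
      obtain ⟨p, _, rfl⟩ := mem_image.1 hv
      obtain ⟨q, _, rfl⟩ := mem_image.1 hw
      refine ⟨fun h => hvw (by show g p = g q; rw [show p = q from h]), ?_, ?_, ?_, ?_⟩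
      all_goals intro h
      all_goals exact congrArg e h

end Pool.Agent.Q202.FPP
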