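import Pool.Agent.Q202.FPP.Defs
import Pool.Agent.Q202.FPP.Graph

/-! # Circuits without further gates for few pairs -/

set_option autoImplicit false

open Finset

namespace Pool.Agent.Q202.FPP

open Pool.Agent.H520R2.NM Pool.Agent.H679R2.M1

/-- formulas of AND and OR -/
inductive Fm (ι : Type) : Type
  | inp (i : ι) : Fm ι
  | and (a b : Fm ι) : Fm ι
  | or (a b : Fm ι) : Fm ι

/-- the value -/
def Fm.val {ι : Type} (x : ι → Bool) : Fm ι → Bool
  | .inp i => x i
  | .and a b => a.val x && b.val x
  | .or a b => a.val x || b.val x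

/-- the number of gates -/
def Fm.size {ι : Type} : Fm ι → ℕ
  | .inp _ => 0
  | .and a b => a.size + b.size + 1
  | .or a b => a.size + b.size + 1

/-- wires of a longer circuit -/
def lift {ι : Type} {n N : ℕ} (h : n ≤ N) : Wire ι n → Wire ι N
  | .input i => .input i
  | .const b => .const b
  | .gate j => .gate (Fin.castLE h j)

lemma lift_eval {ι : Type} {n N : ℕ} (h : n ≤ N) (x : ι → Bool) (v : Fin n → Bool)
    (V : Fin N → Bool) (hv : ∀ j, V (Fin.castLE h j) = v j) (w : Wire ι n) :
    (lift h w).eval x V = w.eval x v := by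
  cases w with
  | input i => rfl
  | const b => rfl
  | gate j => exact hv j

lemma compile {ι : Type} (φ : Fm ι) : ∀ {n : ℕ} (C : Circuit ι n),
    ∃ (N : ℕ) (h : n ≤ N) (C' : Circuit ι N) (w : Wire ι N), C'.size = C.size + φ.size ∧
      C'.fanins = C.fanins ∧ ∀ x, w.eval x (C'.vals x) = φ.val x ∧
        ∀ j, C'.vals x (Fin.castLE h j) = C.vals x j := by
  induction φ with
  | inp i =>
    intro n C
    exact ⟨n, le_rfl, C, .input i, rfl, rfl, fun x => ⟨rfl, fun j => rfl⟩⟩
  | and a b iha ihb =>
    intro n C
    obtain ⟨N1, h1, C1, w1, hs1, hf1, hv1⟩ := iha C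
    obtain ⟨N2, h2, C2, w2, hs2, hf2, hv2⟩ := ihb C1
    refine ⟨N2 + 1, by omega, .and C2 (lift h2 w1) w2, .gate (Fin.last N2), ?_, ?_, fun x => ?_⟩
    · simp only [Circuit.size, Fm.size]
      omega
    · simp only [Circuit.fanins]
      rw [hf2, hf1]
    · constructor
      · show Fin.snoc (α := fun _ => Bool) (C2.vals x) _ (Fin.last N2) = _
        rw [Fin.snoc_last, lift_eval h2 x (C1.vals x) _ (hv2 x).2, (hv1 x).1, (hv2 x).1]
        rfl
      · intro j
        have h3 : Fin.castLE (by omega : n ≤ N2 + 1) j =
            Fin.castSucc (Fin.castLE h2 (Fin.castLE h1 j)) := rfl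
        rw [h3]
        show Fin.snoc (α := fun _ => Bool) (C2.vals x) _ (Fin.castSucc _) = _
        rw [Fin.snoc_castSucc, (hv2 x).2, (hv1 x).2]
  | or a b iha ihb =>
    intro n C
    obtain ⟨N1, h1, C1, w1, hs1, hf1, hv1⟩ := iha C
    obtain ⟨N2, h2, C2, w2, hs2, hf2, hv2⟩ := ihb C1
    refine ⟨N2 + 1, by omega, .or C2 (lift h2 w1) w2, .gate (Fin.last N2), ?_, ?_, fun x => ?_⟩
    · simp only [Circuit.size, Fm.size]
      omega
    · simp only [Circuit.fanins]
      rw [hf2, hf1]
    · constructor
      · show Fin.snoc (α := fun _ => Bool) (C2.vals x) _ (Fin.last N2) = _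
        rw [Fin.snoc_last, lift_eval h2 x (C1.vals x) _ (hv2 x).2, (hv1 x).1, (hv2 x).1]
        rfl
      · intro j
        have h3 : Fin.castLE (by omega : n ≤ N2 + 1) j =
            Fin.castSucc (Fin.castLE h2 (Fin.castLE h1 j)) := rfl
        rw [h3]
        show Fin.snoc (α := fun _ => Bool) (C2.vals x) _ (Fin.castSucc _) = _
        rw [Fin.snoc_castSucc, (hv2 x).2, (hv1 x).2]

/-- the pairs in `P` are given by `T`, the others by `u` -/
def comb {n : ℕ} (P T : Finset (Sym2 (Fin n))) (u : {e : Sym2 (Fin n) // e ∉ P} → Bool) :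
    Sym2 (Fin n) → Bool := fun e => if h : e ∈ P then decide (e ∈ T) else u ⟨e, h⟩

open Classical in
/-- the formula -/
noncomputable def mux {n : ℕ} (P : Finset (Sym2 (Fin n))) (K : ℕ) :
    List {e : Sym2 (Fin n) // e ∈ P} → Finset (Sym2 (Fin n)) → Fm (Input P)
  | [], T => .inp (.inr fun u => decide (¬ (gr (comb P T u)).CliqueFree K))
  | e :: l, T => .or (.and (.inp (.inl e)) (mux P K l (insert e.1 T))) (mux P K l T)

lemma mux_size {n : ℕ} (P : Finset (Sym2 (Fin n))) (K : ℕ) (l : List {e : Sym2 (Fin n) // e ∈ P}) :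
    ∀ T, (mux P K l T).size + 2 = 2 ^ (l.length + 1) := by
  induction l with
  | nil => intro T; rfl
  | cons e l ih =>
    intro T
    have h1 := ih (insert e.1 T)
    have h2 := ih T
    show (0 + (mux P K l (insert e.1 T)).size + 1) + (mux P K l T).size + 1 + 2 = _
    rw [List.length_cons, pow_succ]
    omega

lemma mux_val {n : ℕ} (P : Finset (Sym2 (Fin n))) (K : ℕ) (x : Sym2 (Fin n) → Bool)
    (l : List {e : Sym2 (Fin n) // e ∈ P}) :
    ∀ T, (mux P K l T).val (value P x) = true ↔ ∃ S : Finset (Sym2 (Fin n)),
      (∀ e ∈ S, x e = true ∧ ∃ e' ∈ l, e'.1 = e) ∧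
        ¬ (gr (comb P (T ∪ S) fun e => x e.1)).CliqueFree K := by
  classical
  induction l with
  | nil =>
    intro T
    show (decide (¬ (gr (comb P T fun e => x e.1)).CliqueFree K)) = true ↔ _
    rw [decide_eq_true_eq]
    constructor
    · intro h
      exact ⟨∅, by simp, by rw [union_empty]; exact h⟩
    · rintro ⟨S, h1, h2⟩
      have : S = ∅ := by
        rw [eq_empty_iff_forall_notMem]
        intro e he
        obtain ⟨_, e', he', _⟩ := h1 e he
        simp at he'
      rw [this, union_empty] at h2
      exact h2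
  | cons e l ih =>
    intro T
    show ((x e.1 && (mux P K l (insert e.1 T)).val (value P x)) ||
      (mux P K l T).val (value P x)) = true ↔ _
    rw [Bool.or_eq_true, Bool.and_eq_true, ih, ih]
    constructor
    · rintro (⟨h0, S, h1, h2⟩ | ⟨S, h1, h2⟩)
      · refine ⟨insert e.1 S, ?_, ?_⟩
        · intro e' he'
          rcases mem_insert.1 he' with h | h
          · rw [h]
            exact ⟨h0, e, by simp, rfl⟩
          · obtain ⟨h3, e'', h4, h5⟩ := h1 e' h
            exact ⟨h3, e'', List.mem_cons_of_mem _ h4, h5⟩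
        · have : T ∪ insert e.1 S = insert e.1 T ∪ S := by
            ext a; simp only [mem_union, mem_insert]; tauto
          rw [this]
          exact h2
      · refine ⟨S, ?_, h2⟩
        intro e' he'
        obtain ⟨h3, e'', h4, h5⟩ := h1 e' he'
        exact ⟨h3, e'', List.mem_cons_of_mem _ h4, h5⟩
    · rintro ⟨S, h1, h2⟩
      by_cases he : e.1 ∈ S
      · left
        refine ⟨(h1 _ he).1, S.erase e.1, ?_, ?_⟩
        · intro e' he'
          rw [mem_erase] at he'
          obtain ⟨h3, e'', h4, h5⟩ := h1 e' he'.2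
          refine ⟨h3, e'', ?_, h5⟩
          rcases List.mem_cons.1 h4 with h | h
          · exact absurd (by rw [← h5, h]) he'.1
          · exact h
        · have : insert e.1 T ∪ S.erase e.1 = T ∪ S := by
            ext a
            simp only [mem_union, mem_insert, mem_erase]
            by_cases h : a = e.1
            · rw [h]; tauto
            · tauto
          rw [this]
          exact h2
      · right
        refine ⟨S, ?_, h2⟩
        intro e' he'
        obtain ⟨h3, e'', h4, h5⟩ := h1 e' he'
        refine ⟨h3, e'', ?_, h5⟩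
        rcases List.mem_cons.1 h4 with h | h
        · exfalso
          apply he
          rw [← h, h5]
          exact he'
        · exact h

lemma mux_all {n : ℕ} (P : Finset (Sym2 (Fin n))) (K : ℕ) (x : Sym2 (Fin n) → Bool) :
    (mux P K (univ : Finset {e // e ∈ P}).toList ∅).val (value P x) = true ↔
      ¬ (gr x).CliqueFree K := by
  classical
  rw [mux_val]
  constructor
  · rintro ⟨S, h1, h2⟩
    intro h3
    apply h2
    apply h3.anti
    intro u w huw
    rw [gr_adj] at huw ⊢
    refine ⟨?_, huw.2⟩
    have h4 := huw.1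
    unfold comb at h4
    split_ifs at h4 with h5
    · rw [decide_eq_true_eq, empty_union] at h4
      exact (h1 _ h4).1
    · exact h4
  · intro h
    refine ⟨P.filter (fun e => x e = true), ?_, ?_⟩
    · intro e he
      rw [mem_filter] at he
      exact ⟨he.2, ⟨e, he.1⟩, by simp, rfl⟩
    · have : (comb P (∅ ∪ P.filter (fun e => x e = true)) fun e => x e.1) = x := by
        funext e
        unfold comb
        split_ifs with h5
        · rw [empty_union, Bool.eq_iff_iff, decide_eq_true_eq, mem_filter]
          exact ⟨fun h => h.2, fun h => ⟨h5, h⟩⟩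
        · rfl
      rw [this]
      exact h

/-- for few pairs in `P` AND gates and OR gates suffice -/
theorem upper {n : ℕ} (P : Finset (Sym2 (Fin n))) (K : ℕ) :
    ∃ (N : ℕ) (R : FreeReduction P 0 0 1 N), R.C.fanins = [] ∧ R.C.size ≤ 2 ^ (P.card + 1) ∧
      ∀ x, Right K K x (R.answer x) := by
  classical
  obtain ⟨N, _, C, w, hs, hf, hv⟩ :=
    compile (mux P K (univ : Finset {e // e ∈ P}).toList ∅) Circuit.empty
  refine ⟨N, ⟨C, fun _ _ => w, fun a => !(a 0)⟩, hf, ?_, fun x => ?_⟩
  · show C.size ≤ _
    rw [hs]
    have := mux_size P K (univ : Finset {e // e ∈ P}).toList ∅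
    rw [Finset.length_toList, card_univ, Fintype.card_coe] at this
    show 0 + _ ≤ _
    omega
  · have h1 : FreeReduction.answer (⟨C, fun _ _ => w, fun a => !(a 0)⟩ : FreeReduction P 0 0 1 N) x =
        !decide (Sat fun _ : Clause 0 0 => w.eval (value P x) (C.vals (value P x))) := rfl
    have h2 : (Sat fun _ : Clause 0 0 => w.eval (value P x) (C.vals (value P x))) ↔
        w.eval (value P x) (C.vals (value P x)) = false := by
      constructor
      · rintro ⟨a, ha⟩
        by_contra hne
        have hne' : w.eval (value P x) (C.vals (value P x)) = true := by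
          simpa using hne
        obtain ⟨l, hl, _⟩ := ha ⟨∅, by simp⟩ hne'
        simp at hl
      · intro h
        refine ⟨fun _ => true, fun c hc => ?_⟩
        rw [h] at hc
        exact absurd hc (by simp)
    have h3 := (hv (value P x)).1
    have h4 := mux_all P K x
    rw [← h3] at h4
    unfold Right
    rw [h1]
    constructor
    · intro h
      have h5 := h4.2 h
      simp only [Bool.not_eq_true', decide_eq_false_iff_not]
      rw [h2, h5]
      simp
    · intro h
      have h5 : w.eval (value P x) (C.vals (value P x)) = false := by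
        by_contra hne
        exact (h4.1 (by simpa using hne)) h
      simp only [Bool.not_eq_false', decide_eq_true_eq]
      rw [h2]
      exact h5

end Pool.Agent.Q202.FPP
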