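import Pool.Agent.Q202.FPP.Embed
import Pool.Agent.Q202.FPP.Mux
import Pool.Agent.Q226.FL2.Nm
import Pool.Agent.H679R2.M1.Main

/-! # Few protected pairs: the lower bound -/

set_option autoImplicit false

open Finset Filter

namespace Pool.Agent.Q202.FPP

open Pool.Agent.H520R2.NM Pool.Agent.H679R2.M1 Pool.Agent.Q226.FL2

variable {n m : ℕ} {P : Finset (Sym2 (Fin n))}

/-- the substitution for the inputs -/
def sub (τ : Sym2 (Fin n) → Sym2 (Fin m) ⊕ Bool) : Input P → Sym2 (Fin m) ⊕ Bool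
  | .inl e => τ e.1
  | .inr h => .inr (h fun e => (τ e.1).elim (fun _ => false) id)

lemma sval_sub (τ : Sym2 (Fin n) → Sym2 (Fin m) ⊕ Bool) (hτ : ∀ e, e ∉ P → ∃ b, τ e = Sum.inr b)
    (x : Sym2 (Fin m) → Bool) : sval (sub (P := P) τ) x = value P (sv τ x) := by
  funext i
  cases i with
  | inl e => rfl
  | inr h =>
    show h (fun e => (τ e.1).elim (fun _ => false) id) = h (fun e => Sum.elim x id (τ e.1))
    congr 1
    funext e
    obtain ⟨b, hb⟩ := hτ e.1 e.2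
    rw [hb]
    rfl

/-- the substituted reduction -/
def rsubst {v d q N : ℕ} (τ : Sym2 (Fin n) → Sym2 (Fin m) ⊕ Bool) (R : FreeReduction P v d q N) :
    Reduction m v d q N where
  C := csub (sub τ) R.C
  out i c := wsub (sub τ) (R.out i c)
  ev := R.ev

lemma answer_rsubst {v d q N : ℕ} (τ : Sym2 (Fin n) → Sym2 (Fin m) ⊕ Bool)
    (hτ : ∀ e, e ∉ P → ∃ b, τ e = Sum.inr b) (R : FreeReduction P v d q N)
    (x : Sym2 (Fin m) → Bool) : (rsubst τ R).answer x = R.answer (sv τ x) := by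
  have h : ∀ i c, (wsub (sub τ) (R.out i c)).eval x ((csub (sub τ) R.C).vals x) =
      (R.out i c).eval (value P (sv τ x)) (R.C.vals (value P (sv τ x))) := by
    intro i c
    rw [wsub_eval, csub_vals, sval_sub τ hτ]
  have h2 : ∀ i, (fun c => (wsub (sub τ) (R.out i c)).eval x ((csub (sub τ) R.C).vals x)) =
      (fun c => (R.out i c).eval (value P (sv τ x)) (R.C.vals (value P (sv τ x)))) :=
    fun i => funext (h i)
  show R.ev _ = R.ev _
  congr 1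
  funext i
  have h3 := h2 i
  apply decide_eq_decide.2
  show (Sat fun c => (wsub (sub τ) (R.out i c)).eval x ((csub (sub τ) R.C).vals x)) ↔
    (Sat fun c => (R.out i c).eval (value P (sv τ x)) (R.C.vals (value P (sv τ x))))
  rw [h3]

lemma exists_m {k p : ℕ} (hk : 1 ≤ k) :
    ∃ m : ℕ, p < (3 * k * (m + 1)) ^ 4 ∧
      32 * (k * (k - 1) * (m * m)) * (k * (k - 1) * (m * m)) ≤ p := by
  obtain ⟨r, hr⟩ : ∃ r, r = Nat.sqrt (Nat.sqrt p) := ⟨_, rfl⟩
  have h1 : r * r ≤ Nat.sqrt p := by rw [hr]; exact Nat.sqrt_le _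
  have h2 : Nat.sqrt p * Nat.sqrt p ≤ p := Nat.sqrt_le _
  have h3 : Nat.sqrt p < (r + 1) * (r + 1) := by rw [hr]; exact Nat.lt_succ_sqrt _
  have h4 : p < (Nat.sqrt p + 1) * (Nat.sqrt p + 1) := Nat.lt_succ_sqrt _
  have h5 : p < (r + 1) ^ 4 := by
    calc p < (Nat.sqrt p + 1) * (Nat.sqrt p + 1) := h4
      _ ≤ ((r + 1) * (r + 1)) * ((r + 1) * (r + 1)) := Nat.mul_le_mul h3 h3
      _ = (r + 1) ^ 4 := by ring
  have h6 : r ^ 4 ≤ p := by
    calc r ^ 4 = (r * r) * (r * r) := by ring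
      _ ≤ Nat.sqrt p * Nat.sqrt p := Nat.mul_le_mul h1 h1
      _ ≤ p := h2
  have h3k : 0 < 3 * k := by omega
  refine ⟨r / (3 * k), ?_, ?_⟩
  · refine lt_of_lt_of_le h5 (Nat.pow_le_pow_left ?_ 4)
    have := Nat.lt_mul_div_succ r h3k
    omega
  · have h7 : 3 * k * (r / (3 * k)) ≤ r := Nat.mul_div_le r (3 * k)
    obtain ⟨m, hm⟩ : ∃ m, m = r / (3 * k) := ⟨_, rfl⟩
    rw [← hm] at h7 ⊢
    have h8 : k * (k - 1) * (m * m) ≤ k * k * (m * m) :=
      Nat.mul_le_mul_right _ (Nat.mul_le_mul_left _ (by omega))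
    calc 32 * (k * (k - 1) * (m * m)) * (k * (k - 1) * (m * m))
        ≤ 32 * (k * k * (m * m)) * (k * k * (m * m)) :=
          Nat.mul_le_mul (Nat.mul_le_mul_left _ h8) h8
      _ ≤ (3 * k * m) ^ 4 := by
          have : (3 * k * m) ^ 4 = 81 * ((k * k * (m * m)) * (k * k * (m * m))) := by ring
          rw [this]
          have h9 : 32 * (k * k * (m * m)) * (k * k * (m * m)) =
            32 * ((k * k * (m * m)) * (k * k * (m * m))) := by ring
          rw [h9]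
          exact Nat.mul_le_mul_right _ (by norm_num)
      _ ≤ r ^ 4 := Nat.pow_le_pow_left h7 4
      _ ≤ p := h6

lemma card_pairs_le (P : Finset (Sym2 (Fin n))) : P.card ≤ n * n := by
  calc P.card ≤ Fintype.card (Sym2 (Fin n)) := card_le_univ _
    _ ≤ Fintype.card (Fin n × Fin n) :=
        Fintype.card_le_of_surjective (fun p : Fin n × Fin n => s(p.1, p.2)) (by
          intro e
          induction e using Sym2.ind with
          | h x y => exact ⟨(x, y), rfl⟩)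
    _ = n * n := by rw [Fintype.card_prod, Fintype.card_fin]

lemma right_iff {k K : ℕ} {τ : Sym2 (Fin n) → Sym2 (Fin m) ⊕ Bool}
    (h : ∀ x, (¬ (gr (sv τ x)).CliqueFree K ↔ ¬ (gr x).CliqueFree k)) (x : Sym2 (Fin m) → Bool)
    (b : Bool) : Right K K (sv τ x) b ↔ Right k k x b := by
  have h1 := h x
  have h2 := not_iff_not.1 h1
  unfold Right
  rw [h1]
  exact Iff.and Iff.rfl (by rw [h2])

/-- the sum of the values of `f` for the `K` that belong to `k` -/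
def upTo (f : ℕ → ℕ) (k : ℕ) : ℕ := ∑ K ∈ range (2 * ((k + 1) * (k + 1))), f K

lemma le_upTo (f : ℕ → ℕ) (K : ℕ) : f K ≤ upTo f (Nat.sqrt (K / 2)) := by
  unfold upTo
  apply single_le_sum (f := f) (fun _ _ => Nat.zero_le _)
  rw [mem_range]
  have := Nat.lt_succ_sqrt (K / 2)
  have h2 : K / 2 < (Nat.sqrt (K / 2) + 1) * (Nat.sqrt (K / 2) + 1) := this
  omega

lemma tendsto_sqrt : Tendsto (fun K => Nat.sqrt (K / 2)) atTop atTop := by
  rw [tendsto_atTop]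
  intro b
  filter_upwards [eventually_ge_atTop (2 * (b * b))] with K hK
  rw [Nat.le_sqrt]
  omega

/-- the numerical part -/
lemma numbers (k : ℕ) (hk : 1 ≤ k) (ε γ : ℝ) (hε : 0 < ε) (hγ0 : 0 ≤ γ) (hγ : γ < 1 / 2)
    (Good : ℕ → Prop) (hGood : ∀ᶠ m in atTop, Good m) :
    ∀ᶠ n : ℕ in atTop, ∀ P : Finset (Sym2 (Fin n)), (n : ℝ) ^ ε ≤ P.card →
      ∃ m : ℕ, Good m ∧ 1 ≤ m ∧ n ≤ m ^ ⌈5 / ε⌉₊ ∧ (P.card : ℝ) ^ γ ≤ (m : ℝ) ^ (1 + 2 * γ) ∧
        32 * (k * (k - 1) * (m * m)) * (k * (k - 1) * (m * m)) ≤ P.card := by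
  have hδ : 0 < 1 - 2 * γ := by linarith
  have h1 : ∀ᶠ m : ℕ in atTop, ((6 * k : ℕ) : ℝ) ^ (4 * γ) ≤ (m : ℝ) ^ (1 - 2 * γ) :=
    ((tendsto_rpow_atTop hδ).comp tendsto_natCast_atTop_atTop).eventually_ge_atTop _
  obtain ⟨M, hM⟩ := ((hGood.and h1).and ((eventually_ge_atTop ((6 * k) ^ 4)).and
    (eventually_ge_atTop 1))).exists_forall_of_atTop
  have h2 : ∀ᶠ n : ℕ in atTop, (((3 * k * M) ^ 4 : ℕ) : ℝ) ≤ (n : ℝ) ^ ε :=
    ((tendsto_rpow_atTop hε).comp tendsto_natCast_atTop_atTop).eventually_ge_atTop _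
  filter_upwards [h2, eventually_ge_atTop 1] with n hn hn1
  intro P hP
  obtain ⟨m, hm1, hm2⟩ := exists_m (p := P.card) hk
  have hmM : M ≤ m := by
    by_contra hcon
    push Not at hcon
    have h3 : (3 * k * (m + 1)) ^ 4 ≤ (3 * k * M) ^ 4 :=
      Nat.pow_le_pow_left (Nat.mul_le_mul_left _ (by omega)) 4
    have h4 : P.card < (3 * k * M) ^ 4 := lt_of_lt_of_le hm1 h3
    have h5 : (P.card : ℝ) < (((3 * k * M) ^ 4 : ℕ) : ℝ) := by exact_mod_cast h4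
    linarith
  obtain ⟨⟨hg, h3⟩, h4, h5⟩ := hM m hmM
  have h6 : P.card ≤ (6 * k * m) ^ 4 := by
    refine hm1.le.trans (Nat.pow_le_pow_left ?_ 4)
    calc 3 * k * (m + 1) ≤ 3 * k * (2 * m) := Nat.mul_le_mul_left _ (by omega)
      _ = 6 * k * m := by ring
  have h7 : P.card ≤ m ^ 5 := by
    calc P.card ≤ (6 * k * m) ^ 4 := h6
      _ = (6 * k) ^ 4 * m ^ 4 := by ring
      _ ≤ m * m ^ 4 := Nat.mul_le_mul_right _ h4
      _ = m ^ 5 := by ring
  have hm0 : (0 : ℝ) < m := by exact_mod_cast h5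
  have hm1' : (1 : ℝ) ≤ m := by exact_mod_cast h5
  refine ⟨m, hg, h5, ?_, ?_, hm2⟩
  · have h8 : (n : ℝ) ^ ε ≤ (m : ℝ) ^ (5 : ℝ) := by
      refine hP.trans ?_
      have : (P.card : ℝ) ≤ ((m ^ 5 : ℕ) : ℝ) := by exact_mod_cast h7
      rw [Nat.cast_pow] at this
      rw [show ((5 : ℝ)) = ((5 : ℕ) : ℝ) by norm_num, Real.rpow_natCast]
      exact this
    have hn0 : (0 : ℝ) ≤ n := Nat.cast_nonneg n
    have h9 : (n : ℝ) ≤ (m : ℝ) ^ (5 / ε) := by
      have h10 := Real.rpow_le_rpow (Real.rpow_nonneg hn0 ε) h8 (by positivity : (0:ℝ) ≤ 1 / ε)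
      rw [← Real.rpow_mul hn0, ← Real.rpow_mul hm0.le, mul_one_div, div_self hε.ne',
        Real.rpow_one, mul_one_div] at h10
      exact h10
    have h11 : (m : ℝ) ^ (5 / ε) ≤ (m : ℝ) ^ ((⌈5 / ε⌉₊ : ℕ) : ℝ) :=
      Real.rpow_le_rpow_of_exponent_le hm1' (Nat.le_ceil _)
    have h12 : (n : ℝ) ≤ ((m ^ ⌈5 / ε⌉₊ : ℕ) : ℝ) := by
      rw [Nat.cast_pow, ← Real.rpow_natCast]
      exact h9.trans h11
    exact_mod_cast h12
  · have h8 : (P.card : ℝ) ≤ (((6 * k : ℕ) : ℝ) * m) ^ (4 : ℝ) := by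
      rw [show ((4 : ℝ)) = ((4 : ℕ) : ℝ) by norm_num, Real.rpow_natCast]
      exact_mod_cast h6
    have h6k : (0 : ℝ) ≤ ((6 * k : ℕ) : ℝ) := Nat.cast_nonneg _
    calc (P.card : ℝ) ^ γ ≤ ((((6 * k : ℕ) : ℝ) * m) ^ (4 : ℝ)) ^ γ :=
          Real.rpow_le_rpow (Nat.cast_nonneg _) h8 hγ0
      _ = ((6 * k : ℕ) : ℝ) ^ (4 * γ) * (m : ℝ) ^ (4 * γ) := by
          rw [← Real.rpow_mul (by positivity), Real.mul_rpow h6k hm0.le]
      _ ≤ (m : ℝ) ^ (1 - 2 * γ) * (m : ℝ) ^ (4 * γ) :=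
          mul_le_mul_of_nonneg_right h3 (by positivity)
      _ = (m : ℝ) ^ (1 + 2 * γ) := by
          rw [← Real.rpow_add hm0]
          congr 1
          ring

theorem main (f g : ℕ → ℕ) (c d : ℕ) (ε γ : ℝ) (hε : 0 < ε) (hγ0 : 0 ≤ γ) (hγ : γ < 1 / 2) :
    ∀ᶠ k : ℕ in atTop, ∃ α : ℝ, 0 < α ∧ ∀ᶠ n : ℕ in atTop, ∀ P : Finset (Sym2 (Fin n)),
      (∀ e ∈ P, ¬ e.IsDiag) → (n : ℝ) ^ ε ≤ P.card →
      (∃ (Λ : Type) (_ : Fintype Λ) (_ : Nonempty Λ) (x : Λ → Sym2 (Fin n) → Bool),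
        ∀ (v q N : ℕ) (R : FreeReduction P v d q N),
          v ≤ g k * (Nat.log 2 (f k * n ^ c) + 1) →
          (((q + 1) * (R.C.fanins.map (· + 1)).prod : ℕ) : ℝ) ≤ (P.card : ℝ) ^ γ →
          R.C.size + R.C.fanins.sum ≤ f k * n ^ c →
          (Set.ncard {l | Right k k (x l) (R.answer (x l))} : ℝ) <
            (1 / 2 + (n : ℝ) ^ (-α)) * Fintype.card Λ) ∧
      ∀ (Ω : Type) [Fintype Ω] (w : Ω → ℝ), (∀ r, 0 ≤ w r) → ∑ r, w r = 1 →
        ∀ (v q N : Ω → ℕ) (R : ∀ r, FreeReduction P (v r) d (q r) (N r)),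
          (∀ r, v r ≤ g k * (Nat.log 2 (f k * n ^ c) + 1)) →
          (∀ r, (((q r + 1) * ((R r).C.fanins.map (· + 1)).prod : ℕ) : ℝ) ≤
            (P.card : ℝ) ^ γ) →
          (∀ r, (R r).C.size + (R r).C.fanins.sum ≤ f k * n ^ c) →
          ∃ x : Sym2 (Fin n) → Bool,
            ∀ Q : Finset Ω, (∀ r ∈ Q, Right k k x ((R r).answer x)) →
              ∑ r ∈ Q, w r < 1 / 2 + (n : ℝ) ^ (-α) := by
  classical
  obtain ⟨e1, he1⟩ : ∃ e1, e1 = ⌈5 / ε⌉₊ := ⟨_, rfl⟩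
  have he1p : 0 < e1 := by rw [he1]; exact Nat.ceil_pos.2 (by positivity)
  have hbase := no_reduction (upTo f) (upTo g) id (fun k => le_rfl) (c := e1 * c) (d := d)
    (γ := 1 + 2 * γ) (by linarith) (by linarith)
  filter_upwards [tendsto_sqrt.eventually hbase, tendsto_sqrt.eventually (eventually_ge_atTop 2)]
    with K hb hk2
  have hfK := le_upTo f K
  have hgK := le_upTo g K
  obtain ⟨k, hkd⟩ : ∃ k, k = Nat.sqrt (K / 2) := ⟨_, rfl⟩
  have hKk : 2 * (k * k) ≤ K := by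
    have := Nat.sqrt_le (K / 2)
    rw [← hkd] at this
    omega
  rw [← hkd] at hb hk2 hfK hgK
  obtain ⟨α0, hα0, hb⟩ := hb
  have he1r : (0 : ℝ) < e1 := by exact_mod_cast he1p
  refine ⟨α0 / e1, div_pos hα0 he1r, ?_⟩
  filter_upwards [numbers k (by omega) ε γ hε hγ0 hγ _ hb, eventually_ge_atTop (2 * K),
    eventually_ge_atTop 1] with n hn hnK hn1
  intro P hPd hP
  obtain ⟨m, hg, hm1, hnm, hpm, h32⟩ := hn P hP
  rw [← he1] at hnm
  obtain ⟨t, htd⟩ : ∃ t, t = k * (k - 1) * (m * m) := ⟨_, rfl⟩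
  have ht4 : 4 * t ≤ n := by
    rw [← htd] at h32
    have h1 := card_pairs_le P
    by_contra hcon
    push Not at hcon
    have h2 : n * n < 4 * t * (4 * t) := Nat.mul_self_lt_mul_self hcon
    have h3 : 4 * t * (4 * t) = 16 * (t * t) := by ring
    have h4 : 32 * t * t = 32 * (t * t) := by ring
    rw [h4] at h32
    omega
  have hkk : k * (k - 1) + k = k * k := by
    obtain ⟨k', rfl⟩ : ∃ k', k = k' + 1 := ⟨k - 1, by omega⟩
    rw [Nat.add_sub_cancel]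
    ring
  obtain ⟨τ, hτ1, hτ2⟩ := core (n := n) (m := m) (k := k) (K := K) hk2 hm1 P hPd (by omega) (by
    rw [← htd] at h32 ⊢
    have h3 : 2 * t * t = 2 * (t * t) := by ring
    have h4 : 32 * t * t = 32 * (t * t) := by ring
    omega) (by
    rw [← htd]
    omega)
  have hsize : f K * n ^ c ≤ upTo f k * m ^ (e1 * c) := by
    rw [pow_mul]
    exact Nat.mul_le_mul hfK (Nat.pow_le_pow_left hnm c)
  have hlog : g K * (Nat.log 2 (f K * n ^ c) + 1) ≤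
      upTo g k * (Nat.log 2 (upTo f k * m ^ (e1 * c)) + 1) :=
    Nat.mul_le_mul hgK (Nat.add_le_add_right (Nat.log_mono_right hsize) 1)
  have hn0 : (0 : ℝ) < n := by exact_mod_cast hn1
  have hm0 : (0 : ℝ) < m := by exact_mod_cast hm1
  have hα : (m : ℝ) ^ (-α0) ≤ (n : ℝ) ^ (-(α0 / e1)) := by
    rw [Real.rpow_neg hm0.le, Real.rpow_neg hn0.le]
    apply inv_anti₀ (Real.rpow_pos_of_pos hn0 _)
    have h1 : (n : ℝ) ≤ (m : ℝ) ^ (e1 : ℝ) := by
      rw [Real.rpow_natCast]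
      exact_mod_cast hnm
    calc (n : ℝ) ^ (α0 / e1) ≤ ((m : ℝ) ^ (e1 : ℝ)) ^ (α0 / e1) :=
          Real.rpow_le_rpow hn0.le h1 (div_pos hα0 he1r).le
      _ = (m : ℝ) ^ α0 := by
          rw [← Real.rpow_mul hm0.le]
          congr 1
          field_simp
  have hfan : ∀ {v q N : ℕ} (R : FreeReduction P v d q N),
      (rsubst τ R).C.fanins = R.C.fanins := fun R => csub_fanins _ _
  have hsz : ∀ {v q N : ℕ} (R : FreeReduction P v d q N),
      (rsubst τ R).C.size = R.C.size := fun R => csub_size _ _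
  constructor
  · obtain ⟨Λ, hΛ, hΛn, x, _, hx⟩ := hg.1
    refine ⟨Λ, hΛ, hΛn, fun l => sv τ (x l), ?_⟩
    intro v q N R h1 h2 h3
    have h4 := hx v q N (rsubst τ R) (h1.trans hlog) (by rw [hfan]; exact h2.trans hpm)
      (by rw [hfan, hsz]; exact h3.trans hsize)
    have h5 : {l | Right K K (sv τ (x l)) (R.answer (sv τ (x l)))} =
        {l | Right (id k) k (x l) ((rsubst τ R).answer (x l))} := by
      ext l
      simp only [Set.mem_ofPred_eq]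
      rw [answer_rsubst τ hτ1]
      exact right_iff hτ2 (x l) _
    rw [h5]
    refine lt_of_lt_of_le h4 ?_
    exact mul_le_mul_of_nonneg_right (by linarith) (Nat.cast_nonneg _)
  · intro Ω _ w hw hw1 v q N R h1 h2 h3
    obtain ⟨x, _, hx⟩ := hg.2 Ω w hw hw1 v q N (fun r => rsubst τ (R r))
      (fun r => (h1 r).trans hlog) (fun r => by rw [hfan]; exact (h2 r).trans hpm)
      (fun r => by rw [hfan, hsz]; exact (h3 r).trans hsize)
    refine ⟨sv τ x, fun Q hQ => ?_⟩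
    have h4 := hx Q (fun r hr => by
      rw [answer_rsubst τ hτ1]
      exact (right_iff hτ2 x _).1 (hQ r hr))
    linarith

end Pool.Agent.Q202.FPP
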